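import Mathlib
import Pool.Agent.Helper639.KJ
import Pool.Agent.Helper639.ForceCH

set_option autoImplicit false

namespace Pool.Agent.Results.MP_44eb6b_gt.ConsistentCounterexample

open Pool.Agent.Helper639.ForceCH (OmegaOnePreserved CHHolds)

/-- `C_p(Z)`: the continuous real-valued functions on `Z`, as a subspace of the product `ℝ ^ Z`
(the topology of pointwise convergence). -/
abbrev Cp (Z : Type) [TopologicalSpace Z] : Type := {f : Z → ℝ // Continuous f}

/-- A space is closed-separable if each of its closed subspaces is separable. -/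
def ClosedSeparable (Z : Type) [TopologicalSpace Z] : Prop :=
  ∀ C : Set Z, IsClosed C → TopologicalSpace.SeparableSpace C

/-- Some forcing notion forces that `ω₁` is preserved and CH holds, and CH implies that there is a
Tychonoff space `X` such that `X ^ ω` is closed-separable and `C_p(C_p(X))` is not. -/
theorem result :
    (∃ (P : Type) (_ : Preorder P), Nonempty P ∧
      ∀ p : P, p ∈ OmegaOnePreserved P ∧ p ∈ CHHolds P) ∧
    (Cardinal.aleph.{0} 1 = Cardinal.continuum →
      ∃ (X : Type) (_ : TopologicalSpace X), T35Space X ∧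
        ClosedSeparable (ℕ → X) ∧ ¬ ClosedSeparable (Cp (Cp X))) := by
  refine ⟨?_, ?_⟩
  · obtain ⟨P, i, hn, h⟩ := Pool.Agent.Helper639.ForceCH.exists_forcing
    exact ⟨P, i, hn, fun p => ⟨(h p).1, (h p).2.2⟩⟩
  · intro hCH
    obtain ⟨X, τ, h1, h2, C, hC, hns⟩ := Helper639.K.main hCH.symm
    exact ⟨X, τ, h1, h2, fun h => hns (h C hC)⟩

end Pool.Agent.Results.MP_44eb6b_gt.ConsistentCounterexample
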